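import Pool.Agent.Q237.ST.Defs

/-!
Products of real characters; odd characters with prescribed splitting.
-/

set_option autoImplicit false

namespace Q237.ST

open Pool.Agent.W97.TW

section prod

variable {m₁ m₂ : ℕ} [NeZero m₁] [NeZero m₂] (χ : DirichletCharacter ℂ m₁)
  (ψ : DirichletCharacter ℂ m₂)

instance : NeZero (Nat.lcm m₁ m₂) := ⟨Nat.lcm_ne_zero (NeZero.ne m₁) (NeZero.ne m₂)⟩

lemma cond_pos : 0 < (χ.mul ψ).conductor := Nat.pos_of_ne_zero (DirichletCharacter.conductor_ne_zero _)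

lemma sq_mul (h1 : χ ^ 2 = 1) (h2 : ψ ^ 2 = 1) : (χ.mul ψ) ^ 2 = 1 := by
  unfold DirichletCharacter.mul
  rw [mul_pow, ← map_pow, ← map_pow, h1, h2, map_one, map_one, mul_one]

lemma sq_primitive_mul (h1 : χ ^ 2 = 1) (h2 : ψ ^ 2 = 1) : (χ.primitive_mul ψ) ^ 2 = 1 := by
  have h3 := sq_mul χ ψ h1 h2
  rw [← DirichletCharacter.changeLevel_eq_one_iff (χ.mul ψ).conductor_dvd_level, map_pow,
    DirichletCharacter.mul_def, DirichletCharacter.changeLevel_primitiveCharacter, h3]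

lemma primitive_mul_apply {a : ℤ} (h1 : IsCoprime a m₁) (h2 : IsCoprime a m₂) :
    χ.primitive_mul ψ a = χ a * ψ a := by
  have h3 : IsCoprime a ((Nat.lcm m₁ m₂ : ℕ) : ℤ) := by
    rw [Int.isCoprime_iff_gcd_eq_one] at h1 h2 ⊢
    have e1 : Nat.Coprime a.natAbs m₁ := by simpa [Int.gcd, Int.natAbs_natCast] using h1
    have e2 : Nat.Coprime a.natAbs m₂ := by simpa [Int.gcd, Int.natAbs_natCast] using h2
    have e3 : Nat.Coprime a.natAbs (Nat.lcm m₁ m₂) :=
      Nat.Coprime.coprime_dvd_right (Nat.lcm_dvd_mul m₁ m₂) (Nat.Coprime.mul_right e1 e2)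
    simpa [Int.gcd, Int.natAbs_natCast] using e3
  rw [DirichletCharacter.mul_def, DirichletCharacter.primitiveCharacter_apply_of_isCoprime _ h3]
  unfold DirichletCharacter.mul
  rw [MulChar.mul_apply, DirichletCharacter.changeLevel_eq_cast_of_dvd' _ _ h3,
    DirichletCharacter.changeLevel_eq_cast_of_dvd' _ _ h3]

lemma prime_dvd_cond (hχ : χ.IsPrimitive) (hψ : ψ.IsPrimitive) (h1 : χ ^ 2 = 1) {p : ℕ} (hp : p.Prime)
    (hpm : ¬ p ∣ m₁) : p ∣ (χ.mul ψ).conductor ↔ p ∣ m₂ := by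
  constructor
  · intro h
    have h2 : p ∣ Nat.lcm m₁ m₂ := h.trans (χ.mul ψ).conductor_dvd_level
    have h3 : p ∣ m₁ * m₂ := h2.trans (Nat.lcm_dvd_mul m₁ m₂)
    exact (hp.dvd_mul.1 h3).resolve_left hpm
  · intro h
    have e1 : DirichletCharacter.changeLevel (Nat.dvd_lcm_right m₁ m₂) ψ =
        DirichletCharacter.changeLevel (Nat.dvd_lcm_left m₁ m₂) χ * χ.mul ψ := by
      unfold DirichletCharacter.mul
      rw [← mul_assoc, ← sq, ← map_pow, h1, map_one, one_mul]
    have e2 := DirichletCharacter.conductor_mul_dvd_lcm_conductor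
      (DirichletCharacter.changeLevel (Nat.dvd_lcm_left m₁ m₂) χ) (χ.mul ψ)
    rw [← e1, DirichletCharacter.conductor_changeLevel, DirichletCharacter.conductor_changeLevel,
      (DirichletCharacter.isPrimitive_def _).1 hχ, (DirichletCharacter.isPrimitive_def _).1 hψ] at e2
    have h3 : p ∣ m₁ * (χ.mul ψ).conductor := (h.trans e2).trans (Nat.lcm_dvd_mul _ _)
    exact (hp.dvd_mul.1 h3).resolve_left hpm

end prod

lemma chi_one_of_primes {m : ℕ} (χ : DirichletCharacter ℂ m) (Q : ℕ) (hQ : 0 < Q)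
    (h : ∀ p : ℕ, p.Prime → p ∣ Q → χ p = 1) : χ Q = 1 := by
  induction Q using Nat.strong_induction_on with
  | _ Q ih =>
    rcases Nat.eq_or_lt_of_le (Nat.one_le_iff_ne_zero.2 hQ.ne') with h1 | h1
    · rw [← h1]; simp
    · obtain ⟨p, hp, hpQ⟩ := Nat.exists_prime_and_dvd h1.ne'
      obtain ⟨R, rfl⟩ := hpQ
      have hR : 0 < R := Nat.pos_of_mul_pos_left hQ
      rw [Nat.cast_mul, map_mul, h p hp (dvd_mul_right _ _), one_mul]
      refine ih R ?_ hR fun q hq hqR => h q hq (hqR.mul_left _)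
      exact (Nat.lt_mul_iff_one_lt_left hR).2 hp.one_lt

/-- the part of `N` prime to `m` -/
lemma coprime_part {N : ℕ} (hN : Squarefree N) {m : ℕ} :
    Nat.Coprime (N / Nat.gcd N m) m ∧ N ∣ (N / Nat.gcd N m) * m := by
  have hg : Nat.gcd N m ∣ N := Nat.gcd_dvd_left N m
  constructor
  · rw [Nat.coprime_iff_gcd_eq_one]
    by_contra h
    obtain ⟨p, hp, hpd⟩ := Nat.exists_prime_and_dvd h
    have h1 : p ∣ N / Nat.gcd N m := hpd.trans (Nat.gcd_dvd_left _ _)
    have h2 : p ∣ m := hpd.trans (Nat.gcd_dvd_right _ _)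
    have h3 : p ∣ Nat.gcd N m := Nat.dvd_gcd (h1.trans (Nat.div_dvd_of_dvd hg)) h2
    have h4 : p * p ∣ N := by
      rw [← Nat.div_mul_cancel hg]
      exact Nat.mul_dvd_mul h1 h3
    exact hp.one_lt.ne' (Nat.isUnit_iff.1 (hN p h4))
  · calc N = (N / Nat.gcd N m) * Nat.gcd N m := (Nat.div_mul_cancel hg).symm
      _ ∣ _ := Nat.mul_dvd_mul_left _ (Nat.gcd_dvd_right N m)

lemma squarefree_dvd {g c : ℕ} (hg : Squarefree g) (h : ∀ p : ℕ, p.Prime → p ∣ g → p ∣ c) : g ∣ c := by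
  rw [← Nat.prod_primeFactors_of_squarefree hg]
  exact Finset.prod_primes_dvd _ (fun p hp => (Nat.prime_of_mem_primeFactors hp).prime)
    (fun p hp => h p (Nat.prime_of_mem_primeFactors hp) (Nat.dvd_of_mem_primeFactors hp))

/-- For every `N` there are odd quadratic characters of arbitrarily large conductor with
`χ(p) = 1` for all primes `p ∣ N`. -/
theorem exists_chi (N : ℕ) (hN : 0 < N) (B : ℕ) : ∃ χ : QuadraticCharacter, B < χ.modulus ∧
    χ.χ (-1) = -1 ∧ ∀ p : ℕ, p.Prime → p ∣ N → χ.χ p = 1 := by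
  have hne : NeZero (8 * N) := ⟨by positivity⟩
  obtain ⟨q, hqB, hq, hqm⟩ := Nat.forall_exists_prime_gt_and_eq_mod (q := 8 * N)
    (a := (-1 : ZMod (8 * N))) isUnit_one.neg (B + 2)
  have hdvd : 8 * N ∣ q + 1 := by
    rw [← ZMod.natCast_eq_zero_iff]
    push_cast
    rw [hqm]; ring
  have h8 : 8 ∣ q + 1 := (dvd_mul_right 8 N).trans hdvd
  have hNq : N ∣ q + 1 := (dvd_mul_left N 8).trans hdvd
  have hq8 : q % 8 = 7 := by omega
  have hq4 : q % 4 = 3 := by omega
  haveI : Fact q.Prime := ⟨hq⟩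
  have hq2 : q ≠ 2 := by omega
  have hchar : ringChar (ZMod q) ≠ 2 := by
    rw [ZMod.ringChar_zmod_n]; exact hq2
  set η : DirichletCharacter ℂ q := (quadraticChar (ZMod q)).ringHomComp (Int.castRingHom ℂ) with hη
  have hηa : ∀ a : ZMod q, η a = ((quadraticChar (ZMod q) a : ℤ) : ℂ) := fun a => rfl
  have hneg : η (-1) = -1 := by
    rw [hηa]
    have h1 : ¬ IsSquare (-1 : ZMod q) := by
      rw [ZMod.exists_sq_eq_neg_one_iff]
      simp [hq4]
    have h2 : quadraticChar (ZMod q) (-1) = -1 := by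
      rw [quadraticChar_neg_one_iff_not_isSquare]
      exact h1
    rw [h2]; simp
  have hne1 : η ≠ 1 := by
    intro h
    rw [h] at hneg
    rw [MulChar.one_apply isUnit_one.neg] at hneg
    norm_num at hneg
  have hsq : η ^ 2 = 1 := by
    ext a
    rw [MulChar.pow_apply_coe, MulChar.one_apply_coe, hηa]
    have h2 : quadraticChar (ZMod q) (a : ZMod q) ^ 2 = 1 := quadraticChar_sq_one a.ne_zero
    exact_mod_cast h2
  have hprim : η.IsPrimitive := by
    rw [DirichletCharacter.isPrimitive_def]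
    rcases (Nat.dvd_prime hq).1 η.conductor_dvd_level with h | h
    · exact absurd (DirichletCharacter.eq_one_iff_conductor_eq_one.2 h) hne1
    · exact h
  refine ⟨⟨q, hq.pos, η, hprim, hsq, hne1⟩, by change B < q; omega, hneg, ?_⟩
  intro p hp hpN
  change η ((p : ℕ) : ZMod q) = 1
  rw [hηa]
  have hpq : p ∣ q + 1 := hpN.trans hNq
  have hpneq : p ≠ q := by
    rintro rfl
    have h3 : p ∣ 1 := (Nat.dvd_add_right (dvd_refl p)).1 hpq
    exact hp.one_lt.ne' (Nat.dvd_one.1 h3)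
  have hp0 : ((p : ℕ) : ZMod q) ≠ 0 := by
    rw [Ne, ZMod.natCast_eq_zero_iff]
    intro h3
    exact hpneq ((Nat.prime_dvd_prime_iff_eq hq hp).1 h3).symm
  have hs : IsSquare ((p : ℕ) : ZMod q) := by
    rcases hp.eq_two_or_odd with h2 | h2
    · subst h2
      have := (ZMod.exists_sq_eq_two_iff hq2).2 (Or.inr hq8)
      exact_mod_cast this
    · haveI : Fact p.Prime := ⟨hp⟩
      have hq1 : ((q : ℕ) : ZMod p) = -1 := by
        have h3 : ((q + 1 : ℕ) : ZMod p) = 0 := (ZMod.natCast_eq_zero_iff _ _).2 hpq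
        push_cast at h3
        linear_combination h3
      have h4 : p % 4 = 1 ∨ p % 4 = 3 := by omega
      rcases h4 with h4 | h4
      · rw [← ZMod.exists_sq_eq_prime_iff_of_mod_four_eq_one h4 hq2, hq1,
          ZMod.exists_sq_eq_neg_one_iff]
        omega
      · have h5 := ZMod.exists_sq_eq_prime_iff_of_mod_four_eq_three hq4 h4 hpneq.symm
        rw [h5, hq1, ZMod.exists_sq_eq_neg_one_iff]
        omega
  have h6 : quadraticChar (ZMod q) ((p : ℕ) : ZMod q) = 1 :=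
    (quadraticChar_one_iff_isSquare hp0).2 hs
  rw [h6]; simp

end Q237.ST
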