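import Pool.Agent.W97.TW.Defs

/-!
# Newforms of squarefree level and products of quadratic characters

The Hecke operators `heckeT`, the normalised Hecke eigenvalues `lam`, the twisted `L`-functions
`IsTwistedLFunction` and the quadratic characters `QuadraticCharacter` are those of the starting module
`Pool.Agent.W97.TW.Defs`.
-/

set_option autoImplicit false

open UpperHalfPlane MatrixGroups CongruenceSubgroup

namespace Q237.ST

open Pool.Agent.W97.TW

/-- `f ∈ S_k(Γ_0(N))`, `N` squarefree, is a newform (trivial character): `a_1 = 1`, and `f` is an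
eigenfunction of all Hecke operators `T_p` (`p ∤ N`), `U_p` (`p ∣ N`) and of all Atkin–Lehner operators
`W_Q`, `Q ∣ N`, given by the integral matrices `(Qx, y; Nu, Qt)` of determinant `Q`. -/
structure IsNewform (N : ℕ) (k : ℤ) (f : CuspForm (Gamma0 N : Subgroup (GL (Fin 2) ℝ)) k) :
    Prop where
  coeff_one : (qExpansion 1 f).coeff 1 = 1
  hecke : ∀ p : Nat.Primes, ∃ a : ℂ, ∀ z : ℍ, heckeT N k p f z = a * f z
  atkinLehner : ∀ Q : ℕ, Q ∣ N → ∃ w : ℂ, ∀ x y u t : ℤ,
    ((Q : ℤ) * x) * ((Q : ℤ) * t) - y * ((N : ℤ) * u) = (Q : ℤ) → ∀ z : ℍ,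
      f (ofComplex (((Q : ℂ) * x * z + y) / ((N : ℂ) * u * z + (Q : ℂ) * t))) =
        w * ((N : ℂ) * u * z + (Q : ℂ) * t) ^ k * f z

end Q237.ST
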