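import Pool.Agent.Q237.ST.Main
import Pool.Agent.W97.TW.Delta
import Pool.Agent.W97.TW.NewEleven

/-!
The discriminant and `η(z)² η(11z)²` are newforms.
-/

set_option autoImplicit false

open UpperHalfPlane MatrixGroups CongruenceSubgroup Filter Topology

namespace Q237.ST

open Pool.Agent.W97.TW

variable {N : ℕ} {k : ℤ} {f : CuspForm (Gamma0 N : Subgroup (GL (Fin 2) ℝ)) k}

lemma AL_one : AL f 1 1 := by
  intro x y u t hdet z
  have h1 := f_gamma f (a := x) (b := y) (c := (N : ℤ) * u) (d := t) (by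
    push_cast at hdet; linarith) (dvd_mul_right _ _) z.im_pos
  push_cast at h1 ⊢
  rw [one_mul, one_mul, one_mul]
  have h2 : ofComplex ((z : ℂ)) = z := ofComplex_apply z
  change f (ofComplex ((x * (z : ℂ) + y) / ((N : ℂ) * u * z + t))) =
    ((N : ℂ) * u * z + t) ^ k * f (ofComplex (z : ℂ)) at h1
  rw [h2] at h1
  exact h1

lemma AL_self (hN : 0 < N) {w : ℂ}
    (hw : ∀ z : ℍ, f (ofComplex (-1 / ((N : ℂ) * z))) = w * (z : ℂ) ^ k * f z) :
    AL f N (w * ((N : ℂ) ^ k)⁻¹) := by
  intro x y u t hdet z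
  have hNC : (N : ℂ) ≠ 0 := by exact_mod_cast hN.ne'
  have hNR : (0 : ℝ) < N := by exact_mod_cast hN
  have hz : (z : ℂ) ≠ 0 := z.ne_zero
  have hdet' : (N : ℤ) * x * t - y * u = 1 := by
    have h : (N : ℤ) * ((N : ℤ) * x * t - y * u) = N * 1 := by linear_combination hdet
    exact mul_left_cancel₀ (by exact_mod_cast hN.ne') h
  have him : 0 < (-1 / ((N : ℂ) * z)).im := by
    rw [neg_div, Complex.neg_im, one_div, Complex.inv_im, neg_div, neg_neg]
    have h1 : 0 < ((N : ℂ) * z).im := by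
      rw [Complex.mul_im]
      simp only [Complex.natCast_re, Complex.natCast_im, zero_mul, add_zero]
      have := z.im_pos
      have h0 : (z : ℂ).im = z.im := rfl
      rw [h0]
      positivity
    exact div_pos h1 (Complex.normSq_pos.2 (ne_zero_of_im h1))
  have h1 := f_gamma f (a := -y) (b := x) (c := (N : ℤ) * (-t)) (d := u)
    (by linear_combination hdet') (dvd_mul_right _ _) him
  rw [hw z] at h1
  have e1 : (((-y : ℤ) : ℂ) * (-1 / ((N : ℂ) * z)) + x) /
      ((((N : ℤ) * (-t) : ℤ) : ℂ) * (-1 / ((N : ℂ) * z)) + u) =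
      ((N : ℂ) * x * z + y) / ((N : ℂ) * u * z + (N : ℂ) * t) := by
    have e2 : (((-y : ℤ) : ℂ) * (-1 / ((N : ℂ) * z)) + x) = ((N : ℂ) * x * z + y) / ((N : ℂ) * z) := by
      push_cast
      field_simp
      ring
    have e3 : ((((N : ℤ) * (-t) : ℤ) : ℂ) * (-1 / ((N : ℂ) * z)) + u) =
        ((N : ℂ) * u * z + (N : ℂ) * t) / ((N : ℂ) * z) := by
      push_cast
      field_simp
      ring
    rw [e2, e3, div_div_div_cancel_right₀ (mul_ne_zero hNC hz)]
  have e4 : ((((N : ℤ) * (-t) : ℤ) : ℂ) * (-1 / ((N : ℂ) * z)) + u) =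
      ((N : ℂ) * u * z + (N : ℂ) * t) / ((N : ℂ) * z) := by
    push_cast
    field_simp
    ring
  rw [e1, e4] at h1
  rw [h1, div_zpow, mul_zpow]
  have h5 : (N : ℂ) ^ k ≠ 0 := zpow_ne_zero _ hNC
  have h6 : (z : ℂ) ^ k ≠ 0 := zpow_ne_zero _ hz
  field_simp

theorem isNewform_of (hN : N = 1 ∨ N.Prime) (h : Pool.Agent.W97.TW.IsNewform N k f) :
    IsNewform N k f where
  coeff_one := h.coeff_one
  hecke := h.hecke
  atkinLehner := by
    intro Q hQ
    have h1 : Q = 1 ∨ Q = N := by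
      rcases hN with rfl | hN
      · left; exact Nat.dvd_one.1 hQ
      · exact (Nat.dvd_prime hN).1 hQ
    rcases h1 with rfl | rfl
    · exact ⟨1, AL_one⟩
    · obtain ⟨w, hw⟩ := h.fricke
      have hQ0 : 0 < Q := by
        rcases hN with rfl | hN
        · exact one_pos
        · exact hN.pos
      exact ⟨_, AL_self hQ0 hw⟩

theorem newform_delta : IsNewform 1 12 deltaForm := isNewform_of (Or.inl rfl) isNewform_delta

theorem newform_f11 : IsNewform 11 2 f11 := isNewform_of (Or.inr (by norm_num)) isNewform_f11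

end Q237.ST
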