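import Pool.Agent.Q237.ST.Tw
import Pool.Agent.W97.TW.Hecke
import Pool.Agent.W97.TW.Euler

/-!
The `L`-functions of the twists in the analytic normalisation.
-/

set_option autoImplicit false

open UpperHalfPlane MatrixGroups CongruenceSubgroup Filter Topology

namespace Q237.ST

open Pool.Agent.W97.TW

variable {N : ℕ} {k : ℤ} {f : CuspForm (Gamma0 N : Subgroup (GL (Fin 2) ℝ)) k}

lemma A_rec [NeZero N] (h1 : (qExpansion 1 f).coeff 1 = 1)
    (hh : ∀ p : Nat.Primes, ∃ a : ℂ, ∀ z : ℍ, heckeT N k p f z = a * f z) (p : Nat.Primes) (m : ℕ) :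
    A f (p * m) = A f p * A f m - (if (p : ℕ) ∣ N then 0 else (p : ℂ) ^ (k - 1)) *
      (if (p : ℕ) ∣ m then A f (m / p) else 0) := by
  obtain ⟨a, ha⟩ := hh p
  have e1 := hecke_rec f p.2.pos ha 1
  have e2 := hecke_rec f p.2.pos ha m
  unfold B at e1 e2
  have hp1 : ¬ (p : ℕ) ∣ 1 := fun hd => p.2.one_lt.ne' (Nat.dvd_one.mp hd)
  have hA1 : A f 1 = 1 := h1
  rw [if_neg hp1, mul_zero, zero_add, mul_one, hA1, mul_one] at e1
  rw [e1]
  linear_combination e2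

lemma lam_zero [NeZero N] : lam N k f 0 = 0 := by
  have : (qExpansion 1 f).coeff 0 = 0 := A_zero f
  unfold lam
  rw [this, zero_mul]

lemma lam_one (h1 : (qExpansion 1 f).coeff 1 = 1) : lam N k f 1 = 1 := by
  unfold lam
  rw [h1]
  simp

lemma lam_rec [NeZero N] (h1 : (qExpansion 1 f).coeff 1 = 1)
    (hh : ∀ p : Nat.Primes, ∃ a : ℂ, ∀ z : ℍ, heckeT N k p f z = a * f z) (p : Nat.Primes) (m : ℕ)
    (hm : 0 < m) :
    lam N k f (p * m) = lam N k f p * lam N k f m - (if (p : ℕ) ∣ N then 0 else 1) *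
      (if (p : ℕ) ∣ m then lam N k f (m / p) else 0) := by
  have h2 := A_rec h1 hh p m
  have hpC : ((p : ℕ) : ℂ) ≠ 0 := by exact_mod_cast p.2.ne_zero
  unfold lam
  change A f (p * m) * _ = A f p * _ * (A f m * _) - _
  rw [h2, Nat.cast_mul, Complex.natCast_mul_natCast_cpow]
  by_cases hd : (p : ℕ) ∣ m
  · rw [if_pos hd, if_pos hd]
    obtain ⟨m', rfl⟩ := hd
    rw [Nat.mul_div_cancel_left _ p.2.pos, Nat.cast_mul, Complex.natCast_mul_natCast_cpow]
    change _ = _ - _ * (A f m' * _)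
    by_cases hN : (p : ℕ) ∣ N
    · rw [if_pos hN, if_pos hN]
      ring
    · rw [if_neg hN, if_neg hN]
      have e : ((p : ℕ) : ℂ) ^ (k - 1) * (((p : ℕ) : ℂ) ^ (-(((k : ℂ) - 1) / 2)) *
          ((p : ℕ) : ℂ) ^ (-(((k : ℂ) - 1) / 2))) = 1 := by
        rw [← Complex.cpow_add _ _ hpC, ← Complex.cpow_intCast, ← Complex.cpow_add _ _ hpC]
        push_cast
        rw [show (k : ℂ) - 1 + (-(((k : ℂ) - 1) / 2) + -(((k : ℂ) - 1) / 2)) = 0 by ring,
          Complex.cpow_zero]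
      linear_combination (-(A f m' * (m' : ℂ) ^ (-(((k : ℂ) - 1) / 2)))) * e
  · rw [if_neg hd, if_neg hd]
    ring

lemma lam_bound [NeZero N] : ∃ C : ℝ, ∀ n : ℕ, ‖lam N k f n‖ ≤ C * Real.sqrt n := by
  obtain ⟨C, hC⟩ := A_bound f
  refine ⟨C, fun n => ?_⟩
  rcases Nat.eq_zero_or_pos n with rfl | hn
  · rw [lam_zero]; simp
  · have hn0 : (0 : ℝ) < n := by exact_mod_cast hn
    unfold lam
    rw [norm_mul]
    have h2 : ‖(n : ℂ) ^ (-(((k : ℂ) - 1) / 2))‖ = (n : ℝ) ^ (-(((k : ℝ) - 1) / 2)) := by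
      rw [← Complex.ofReal_natCast, Complex.norm_cpow_eq_rpow_re_of_pos hn0]
      congr 1
      have : (-(((k : ℂ) - 1) / 2)) = ((-(((k : ℝ) - 1) / 2) : ℝ) : ℂ) := by push_cast; ring
      rw [this, Complex.ofReal_re]
    rw [h2]
    calc ‖(qExpansion 1 f).coeff n‖ * (n : ℝ) ^ (-(((k : ℝ) - 1) / 2))
        ≤ (C * (n : ℝ) ^ ((k : ℝ) / 2)) * (n : ℝ) ^ (-(((k : ℝ) - 1) / 2)) := by
          gcongr
          exact hC n hn
      _ = C * ((n : ℝ) ^ ((k : ℝ) / 2) * (n : ℝ) ^ (-(((k : ℝ) - 1) / 2))) := by ring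
      _ = C * Real.sqrt n := by
          rw [← Real.rpow_add hn0, Real.sqrt_eq_rpow]
          congr 2
          ring

/-- the Euler product is the Dirichlet series -/
lemma euler [NeZero N] (h1 : (qExpansion 1 f).coeff 1 = 1)
    (hh : ∀ p : Nat.Primes, ∃ a : ℂ, ∀ z : ℍ, heckeT N k p f z = a * f z) {m : ℕ}
    (ψ : DirichletCharacter ℂ m) (s : ℂ) (hs : 3 / 2 < s.re) :
    HasProd (fun p : Nat.Primes =>
      (1 - lam N k f p * ψ p * (p : ℂ) ^ (-s) +
        (if (p : ℕ) ∣ N then 0 else 1) * (ψ p) ^ 2 * (p : ℂ) ^ (-2 * s))⁻¹)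
      (∑' n : ℕ, lam N k f n * ψ n * (n : ℂ) ^ (-s)) := by
  obtain ⟨C, hC⟩ := lam_bound (f := f)
  exact (euler_product (fun p => lam N k f p) (fun p => if (p : ℕ) ∣ N then 0 else 1) (lam N k f)
    lam_zero (lam_one h1) (fun p m hm => lam_rec h1 hh p m hm) C hC ψ s hs).2

/-- uniqueness of the continuation -/
lemma unique_L {m : ℕ} (ψ : DirichletCharacter ℂ m) {L₁ L₂ : ℂ → ℂ}
    (h₁ : IsTwistedLFunction N k f ψ L₁) (h₂ : IsTwistedLFunction N k f ψ L₂) : L₁ = L₂ := by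
  have ha1 : AnalyticOnNhd ℂ L₁ Set.univ := fun z _ => h₁.1.analyticAt z
  have ha2 : AnalyticOnNhd ℂ L₂ Set.univ := fun z _ => h₂.1.analyticAt z
  refine ha1.eq_of_eventuallyEq ha2 (z₀ := 2) ?_
  have : {s : ℂ | 3 / 2 < s.re} ∈ 𝓝 (2 : ℂ) := by
    refine (isOpen_lt continuous_const Complex.continuous_re).mem_nhds ?_
    change (3 / 2 : ℝ) < (2 : ℂ).re
    norm_num
  filter_upwards [this] with s hs
  exact (h₁.2 s hs).unique (h₂.2 s hs)

/-- existence of the continuation; the central value vanishes if the root number is not `1` -/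
theorem exists_L [NeZero N] (hk : 0 < k) (h1 : (qExpansion 1 f).coeff 1 = 1)
    (hh : ∀ p : Nat.Primes, ∃ a : ℂ, ∀ z : ℍ, heckeT N k p f z = a * f z)
    {Q : ℕ} {W : ℂ} (hW : AL f Q W) (hW0 : W ≠ 0) (hQ : 0 < Q)
    {m : ℕ} [NeZero m] (hQm : Nat.Coprime Q m) (hNm : N ∣ Q * m) (ψ : DirichletCharacter ℂ m)
    (hψ : ψ.IsPrimitive) (hsq : ψ ^ 2 = 1) :
    ∃ L : ℂ → ℂ, IsTwistedLFunction N k f ψ L ∧
      (ψ (-((Q : ZMod m))) * (W * (((Real.sqrt Q : ℝ) : ℂ) * Complex.I) ^ k) ≠ 1 → L (1 / 2) = 0) := by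
  obtain ⟨q, H, hq, hH1, hH2, hH3⟩ := exists_H f hk hW hW0 hQ hQm hNm ψ hψ hsq
  set κ : ℂ := ((k : ℂ) - 1) / 2 with hκ
  set b : ℂ := ((q / (2 * Real.pi) : ℝ) : ℂ) with hb
  have hbR : (0 : ℝ) < q / (2 * Real.pi) := by positivity
  have hb0 : b ≠ 0 := by rw [hb]; exact_mod_cast hbR.ne'
  refine ⟨fun s => b ^ (-(s + κ)) * (Complex.Gamma (s + κ))⁻¹ * H (s + κ), ⟨?_, ?_⟩, ?_⟩
  · refine Differentiable.mul (Differentiable.mul ?_ ?_) ?_
    · refine Differentiable.const_cpow (by fun_prop) (Or.inl hb0)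
    · exact Complex.differentiable_one_div_Gamma.comp (by fun_prop)
    · exact hH1.comp (by fun_prop)
  · intro s hs
    have h3 := euler (f := f) h1 hh ψ s hs
    have hκre : κ.re = ((k : ℝ) - 1) / 2 := by
      have : κ = ((((k : ℝ) - 1) / 2 : ℝ) : ℂ) := by rw [hκ]; push_cast; ring
      rw [this, Complex.ofReal_re]
    have hkR : (1 : ℝ) ≤ (k : ℝ) := by exact_mod_cast hk
    have hre : (s + κ).re = s.re + ((k : ℝ) - 1) / 2 := by rw [Complex.add_re, hκre]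
    have hre0 : 0 < (s + κ).re := by rw [hre]; linarith
    have h4 := hH3 (s + κ) hre0 (by rw [hre]; linarith)
    have hG : Complex.Gamma (s + κ) ≠ 0 := by
      apply Complex.Gamma_ne_zero_of_re_pos hre0
    have e1 : (fun n : ℕ => (A f n * ψ n) * (n : ℂ) ^ (-(s + κ))) =
        fun n : ℕ => lam N k f n * ψ n * (n : ℂ) ^ (-s) := by
      funext n
      unfold lam
      change A f n * ψ n * _ = A f n * _ * ψ n * _
      rcases Nat.eq_zero_or_pos n with rfl | hn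
      · rw [A_zero]; simp
      · have hn0 : (n : ℂ) ≠ 0 := by exact_mod_cast hn.ne'
        rw [neg_add, Complex.cpow_add _ _ hn0]
        ring
    rw [e1] at h4
    have e2 : b ^ (-(s + κ)) * (Complex.Gamma (s + κ))⁻¹ * H (s + κ) =
        ∑' n : ℕ, lam N k f n * ψ n * (n : ℂ) ^ (-s) := by
      rw [h4, Complex.cpow_neg]
      have : b ^ (s + κ) ≠ 0 := by
        rw [Complex.cpow_def_of_ne_zero hb0]; exact Complex.exp_ne_zero _
      field_simp
    simp only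
    rw [e2]
    exact h3
  · intro hne
    have h5 := hH2 ((k : ℂ) / 2)
    have e3 : (k : ℂ) - (k : ℂ) / 2 = (k : ℂ) / 2 := by ring
    rw [e3] at h5
    have h6 : H ((k : ℂ) / 2) = 0 := by
      have h7 : (1 - ψ (-((Q : ZMod m))) * (W * (((Real.sqrt Q : ℝ) : ℂ) * Complex.I) ^ k)) *
          H ((k : ℂ) / 2) = 0 := by linear_combination h5
      rcases mul_eq_zero.1 h7 with h | h
      · exact absurd (sub_eq_zero.1 h).symm hne
      · exact h
    have e4 : (1 / 2 : ℂ) + κ = (k : ℂ) / 2 := by rw [hκ]; ring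
    simp only
    rw [e4, h6, mul_zero]

end Q237.ST
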