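import Pool.Agent.Q237.ST.LF
import Pool.Agent.Q237.ST.Chars

/-!
The product of the two central values vanishes.
-/

set_option autoImplicit false

open UpperHalfPlane MatrixGroups CongruenceSubgroup Filter Topology

namespace Q237.ST

open Pool.Agent.W97.TW

variable {N : ℕ} {k : ℤ} {f : CuspForm (Gamma0 N : Subgroup (GL (Fin 2) ℝ)) k}

/-- the constant of the Atkin–Lehner operator is not zero -/
lemma AL_ne_zero [NeZero N] (h1 : (qExpansion 1 f).coeff 1 = 1) {Q : ℕ} (hQN : Q ∣ N)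
    (hco : Nat.Coprime Q (N / Q)) {W : ℂ} (hW : AL f Q W) : W ≠ 0 := by
  rintro rfl
  obtain ⟨R, hR⟩ := hQN
  have hQ0 : 0 < Q := Nat.pos_of_ne_zero (by rintro rfl; exact NeZero.ne N (by simpa using hR))
  have hR' : N / Q = R := by rw [hR, Nat.mul_div_cancel_left _ hQ0]
  rw [hR'] at hco
  -- a matrix
  have hb : (Int.gcd (Q : ℤ) (R : ℤ) : ℤ) = Q * Int.gcdA Q R + R * Int.gcdB Q R := Int.gcd_eq_gcd_ab _ _
  have hg : Int.gcd (Q : ℤ) (R : ℤ) = 1 := by simpa [Int.gcd_natCast_natCast] using hco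
  rw [hg] at hb
  set x : ℤ := Int.gcdA Q R with hx
  set b : ℤ := Int.gcdB Q R with hbb
  -- Q x t - R y u = 1 with t = 1, u = 1, y = -b
  have hdet : ((Q : ℤ) * x) * ((Q : ℤ) * 1) - (-b) * ((N : ℤ) * 1) = (Q : ℤ) := by
    rw [hR]
    push_cast at hb ⊢
    linear_combination (-(Q : ℤ)) * hb
  have hf0 : ∀ τ : ℍ, f τ = 0 := by
    intro τ
    have hQC : (Q : ℂ) ≠ 0 := by exact_mod_cast hQ0.ne'
    have hQR : (0 : ℝ) < Q := by exact_mod_cast hQ0
    have hdetC : ((Q : ℂ) * x) * (Q : ℂ) + b * (N : ℂ) = (Q : ℂ) := by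
      have : (((Q : ℤ) * x) * ((Q : ℤ) * 1) - (-b) * ((N : ℤ) * 1) : ℤ) = (Q : ℤ) := hdet
      have h' : ((((Q : ℤ) * x) * ((Q : ℤ) * 1) - (-b) * ((N : ℤ) * 1) : ℤ) : ℂ) = ((Q : ℤ) : ℂ) := by
        rw [this]
      push_cast at h'
      linear_combination h'
    have hdetR : ((Q : ℝ) * x) * (Q : ℝ) + b * (N : ℝ) = (Q : ℝ) := by exact_mod_cast hdetC
    -- the denominator
    set D : ℂ := -(N : ℂ) * τ + (Q : ℂ) * x with hD
    have hD0 : D ≠ 0 := by
      intro h0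
      have h2 := congrArg Complex.im h0
      have hNR : (0 : ℝ) < N := by exact_mod_cast NeZero.pos N
      have him : D.im = -(N * τ.im) := by
        rw [hD]
        simp [Complex.add_im, Complex.mul_im]
      rw [him, Complex.zero_im] at h2
      have := mul_pos hNR τ.im_pos
      linarith
    set z : ℂ := ((Q : ℂ) * τ + b) / D with hz
    have hzim : 0 < z.im := by
      have hn : 0 < Complex.normSq D := Complex.normSq_pos.2 hD0
      have e1 : z.im = (Q : ℝ) * τ.im / Complex.normSq D := by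
        rw [hz, Complex.div_im]
        have r1 : ((Q : ℂ) * τ + b).im = Q * τ.im := by simp [Complex.add_im, Complex.mul_im]
        have r2 : ((Q : ℂ) * τ + b).re = Q * τ.re + b := by simp [Complex.add_re, Complex.mul_re]
        have r3 : D.re = -(N * τ.re) + Q * x := by rw [hD]; simp [Complex.add_re, Complex.mul_re]
        have r4 : D.im = -(N * τ.im) := by rw [hD]; simp [Complex.add_im, Complex.mul_im]
        rw [r1, r2, r3, r4, ← sub_div]
        congr 1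
        linear_combination τ.im * hdetR
      rw [e1]
      have := τ.im_pos
      positivity
    have h2 := hW x (-b) 1 1 hdet ⟨z, hzim⟩
    rw [zero_mul, zero_mul] at h2
    have h3 : ((⟨z, hzim⟩ : ℍ) : ℂ) = z := rfl
    rw [h3] at h2
    have hden : (N : ℂ) * ((1 : ℤ) : ℂ) * z + (Q : ℂ) * ((1 : ℤ) : ℂ) = (Q : ℂ) / D := by
      rw [hz]
      push_cast
      field_simp
      rw [hD]
      linear_combination hdetC
    have hnum : (Q : ℂ) * x * z + ((-b : ℤ) : ℂ) = (Q : ℂ) * τ / D := by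
      rw [hz]
      push_cast
      field_simp
      rw [hD]
      linear_combination (τ : ℂ) * hdetC
    rw [hden, hnum] at h2
    have e5 : (Q : ℂ) * τ / D / ((Q : ℂ) / D) = τ := by
      field_simp
    rw [e5, ofComplex_apply] at h2
    exact h2
  have hf1 : (f : ℍ → ℂ) = 0 := funext hf0
  have hf2 : f = 0 := by
    ext τ
    exact hf0 τ
  rw [hf2] at h1
  have h4 : (⇑(0 : CuspForm (Gamma0 N : Subgroup (GL (Fin 2) ℝ)) k) : ℍ → ℂ) = 0 := rfl
  rw [h4, qExpansion_zero] at h1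
  simp at h1

/-- the root numbers of `f ⊗ ψ` and `f ⊗ χψ` are opposite -/
theorem main [NeZero N] (hN : Squarefree N) (hk : 0 < k) (hf : IsNewform N k f)
    (χ ψ : QuadraticCharacter) (hodd : χ.χ (-1) = -1)
    (hspl : ∀ p : ℕ, p.Prime → p ∣ N → χ.χ p = 1) :
    ∃ L₁ L₂ : ℂ → ℂ, IsTwistedLFunction N k f ψ.χ L₁ ∧
      IsTwistedLFunction N k f (χ.χ.primitive_mul ψ.χ) L₂ ∧ L₁ (1 / 2) * L₂ (1 / 2) = 0 := by
  have hm1 : NeZero χ.modulus := ⟨χ.modulus_pos.ne'⟩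
  have hm2 : NeZero ψ.modulus := ⟨ψ.modulus_pos.ne'⟩
  set Q : ℕ := N / Nat.gcd N ψ.modulus with hQdef
  have hgN : Nat.gcd N ψ.modulus ∣ N := Nat.gcd_dvd_left _ _
  have hQN : Q ∣ N := Nat.div_dvd_of_dvd hgN
  have hQ0 : 0 < Q := Nat.pos_of_dvd_of_pos hQN (NeZero.pos N)
  obtain ⟨hQm, hNm⟩ := coprime_part hN (m := ψ.modulus)
  rw [← hQdef] at hQm hNm
  have hcoQ : Nat.Coprime Q (N / Q) := by
    rw [Nat.coprime_iff_gcd_eq_one]
    by_contra h
    obtain ⟨p, hp, hpd⟩ := Nat.exists_prime_and_dvd h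
    have h1 : p ∣ Q := hpd.trans (Nat.gcd_dvd_left _ _)
    have h2 : p ∣ N / Q := hpd.trans (Nat.gcd_dvd_right _ _)
    have h4 : p * p ∣ N := by
      rw [← Nat.mul_div_cancel' hQN]
      exact Nat.mul_dvd_mul h1 h2
    exact hp.one_lt.ne' (Nat.isUnit_iff.1 (hN p h4))
  obtain ⟨W, hW⟩ := hf.atkinLehner Q hQN
  have hW' : AL f Q W := hW
  have hW0 := AL_ne_zero hf.coeff_one hQN hcoQ hW'
  -- the second character
  have hm3 : NeZero (χ.χ.mul ψ.χ).conductor := ⟨(cond_pos χ.χ ψ.χ).ne'⟩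
  have hχN : ∀ p : ℕ, p.Prime → p ∣ N → ¬ p ∣ χ.modulus := by
    intro p hp hpN hpm
    have h1 := hspl p hp hpN
    have h2 : ¬ IsUnit ((p : ℕ) : ZMod χ.modulus) := by
      rw [ZMod.isUnit_iff_coprime]
      intro h3
      exact hp.one_lt.ne' (Nat.eq_one_of_dvd_coprimes h3 (dvd_refl p) hpm)
    rw [MulChar.map_nonunit _ h2] at h1
    exact zero_ne_one h1
  have hcond : ∀ p : ℕ, p.Prime → p ∣ N → (p ∣ (χ.χ.mul ψ.χ).conductor ↔ p ∣ ψ.modulus) :=
    fun p hp hpN => prime_dvd_cond χ.χ ψ.χ χ.primitive ψ.primitive χ.sq_eq_one hp (hχN p hp hpN)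
  have hQc : Nat.Coprime Q (χ.χ.mul ψ.χ).conductor := by
    rw [Nat.coprime_iff_gcd_eq_one]
    by_contra h
    obtain ⟨p, hp, hpd⟩ := Nat.exists_prime_and_dvd h
    have h1 : p ∣ Q := hpd.trans (Nat.gcd_dvd_left _ _)
    have h2 : p ∣ (χ.χ.mul ψ.χ).conductor := hpd.trans (Nat.gcd_dvd_right _ _)
    have h3 := (hcond p hp (h1.trans hQN)).1 h2
    exact hp.one_lt.ne' (Nat.eq_one_of_dvd_coprimes hQm h1 h3)
  have hNc : N ∣ Q * (χ.χ.mul ψ.χ).conductor := by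
    have h1 : Nat.gcd N ψ.modulus ∣ (χ.χ.mul ψ.χ).conductor := by
      refine squarefree_dvd (hN.squarefree_of_dvd hgN) fun p hp hpg => ?_
      exact (hcond p hp (hpg.trans hgN)).2 (hpg.trans (Nat.gcd_dvd_right _ _))
    calc N = Q * Nat.gcd N ψ.modulus := (Nat.div_mul_cancel hgN).symm
      _ ∣ _ := Nat.mul_dvd_mul_left _ h1
  obtain ⟨L₁, hL₁, hv₁⟩ := exists_L hk hf.coeff_one hf.hecke hW' hW0 hQ0 hQm hNm ψ.χ ψ.primitive
    ψ.sq_eq_one
  obtain ⟨L₂, hL₂, hv₂⟩ := exists_L hk hf.coeff_one hf.hecke hW' hW0 hQ0 hQc hNc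
    (χ.χ.primitive_mul ψ.χ) (DirichletCharacter.primitive_mul_isPrimitive _ _)
    (sq_primitive_mul χ.χ ψ.χ χ.sq_eq_one ψ.sq_eq_one)
  refine ⟨L₁, L₂, hL₁, hL₂, ?_⟩
  -- the signs
  have hχQ : χ.χ Q = 1 := chi_one_of_primes χ.χ Q hQ0 fun p hp hpQ => hspl p hp (hpQ.trans hQN)
  have hsign : (χ.χ.primitive_mul ψ.χ) (-((Q : ZMod (χ.χ.mul ψ.χ).conductor))) =
      -(ψ.χ (-((Q : ZMod ψ.modulus)))) := by
    have h1 : IsCoprime (-(Q : ℤ)) (χ.modulus : ℤ) := by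
      rw [IsCoprime.neg_left_iff, Nat.isCoprime_iff_coprime, Nat.coprime_iff_gcd_eq_one]
      by_contra h
      obtain ⟨p, hp, hpd⟩ := Nat.exists_prime_and_dvd h
      exact hχN p hp ((hpd.trans (Nat.gcd_dvd_left _ _)).trans hQN) (hpd.trans (Nat.gcd_dvd_right _ _))
    have h2 : IsCoprime (-(Q : ℤ)) (ψ.modulus : ℤ) := by
      rw [IsCoprime.neg_left_iff, Nat.isCoprime_iff_coprime]
      exact hQm
    have h3 := primitive_mul_apply χ.χ ψ.χ h1 h2
    push_cast at h3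
    rw [h3]
    have h4 : χ.χ (-((Q : ZMod χ.modulus))) = -1 := by
      rw [← neg_one_mul, map_mul, hodd, hχQ, mul_one]
    rw [h4]
    ring
  by_cases hε : ψ.χ (-((Q : ZMod ψ.modulus))) * (W * (((Real.sqrt Q : ℝ) : ℂ) * Complex.I) ^ k) = 1
  · have : (χ.χ.primitive_mul ψ.χ) (-((Q : ZMod (χ.χ.mul ψ.χ).conductor))) *
        (W * (((Real.sqrt Q : ℝ) : ℂ) * Complex.I) ^ k) ≠ 1 := by
      rw [hsign, neg_mul, hε]
      norm_num
    rw [hv₂ this, mul_zero]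
  · rw [hv₁ hε, zero_mul]

end Q237.ST
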