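import Pool.Agent.Q237.ST.Defs
import Pool.Agent.W97.TW.Twist
import Pool.Agent.W97.TW.Lfun

/-!
Functional equation of the twist of a form of squarefree level by any primitive real character.
-/

set_option autoImplicit false

open UpperHalfPlane MatrixGroups CongruenceSubgroup Filter Topology

namespace Q237.ST

open Pool.Agent.W97.TW

variable {N : ℕ} {k : ℤ} (f : CuspForm (Gamma0 N : Subgroup (GL (Fin 2) ℝ)) k)

/-- the Atkin-Lehner property for `Q` with constant `w` -/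
def AL (Q : ℕ) (w : ℂ) : Prop := ∀ x y u t : ℤ,
    ((Q : ℤ) * x) * ((Q : ℤ) * t) - y * ((N : ℤ) * u) = (Q : ℤ) → ∀ z : ℍ,
      f (ofComplex (((Q : ℂ) * x * z + y) / ((N : ℂ) * u * z + (Q : ℂ) * t))) =
        w * ((N : ℂ) * u * z + (Q : ℂ) * t) ^ k * f z

lemma cusp_gen {Q : ℕ} {W : ℂ} (hW : AL f Q W) (hQ : 0 < Q) {m : ℕ} (hm : 0 < m)
    (hNm : N ∣ Q * m) {u v g : ℤ} (hg : (Q : ℤ) * u * v + 1 = g * m) {z : ℂ} (hz : 0 < z.im) :
    f (ofComplex (-1 / ((Q : ℂ) * (m : ℂ) ^ 2 * z) + (u : ℂ) / m)) =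
      W * ((Q : ℂ) * (m : ℂ) * z) ^ k * f (ofComplex (z + (v : ℂ) / m)) := by
  have hmC : (m : ℂ) ≠ 0 := by exact_mod_cast hm.ne'
  have hQC : (Q : ℂ) ≠ 0 := by exact_mod_cast hQ.ne'
  have hzC := ne_zero_of_im hz
  set w : ℂ := z + (v : ℂ) / m with hw
  have hwi : 0 < w.im := im_add_div hz v m
  have hwC := ne_zero_of_im hwi
  have hgC : (Q : ℂ) * u * v + 1 = g * m := by exact_mod_cast hg
  obtain ⟨r, hr⟩ := hNm
  have h1 := hW u (-g) r (-v) (by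
    have e1 : (N : ℤ) * (r : ℤ) = Q * m := by exact_mod_cast hr.symm
    rw [e1]
    linear_combination (-(Q : ℤ)) * hg) ⟨w, hwi⟩
  have h3 : ((⟨w, hwi⟩ : ℍ) : ℂ) = w := rfl
  have h4 : f (⟨w, hwi⟩ : ℍ) = f (ofComplex w) := by rw [ofComplex_apply_of_im_pos hwi]
  rw [h3, h4] at h1
  have hmw : (m : ℂ) * w = m * z + v := by rw [hw]; field_simp
  have hrC : (N : ℂ) * (r : ℂ) = Q * m := by exact_mod_cast hr.symm
  have h5 : (N : ℂ) * ((r : ℤ) : ℂ) * w + (Q : ℂ) * ((-v : ℤ) : ℂ) = (Q : ℂ) * m * z := by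
    push_cast
    rw [hrC]
    linear_combination (Q : ℂ) * hmw
  have h6 : ((Q : ℂ) * u * w + ((-g : ℤ) : ℂ)) / ((Q : ℂ) * m * z) =
      -1 / ((Q : ℂ) * (m : ℂ) ^ 2 * z) + (u : ℂ) / m := by
    push_cast
    field_simp
    linear_combination ((Q : ℂ) * u) * hmw + hgC
  rw [h5, h6] at h1
  exact h1

lemma TS_gen {Q : ℕ} {W : ℂ} (hW : AL f Q W) (hQ : 0 < Q) {m : ℕ} [NeZero m]
    (hQm : Nat.Coprime Q m) (hNm : N ∣ Q * m) (ψ : DirichletCharacter ℂ m)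
    (hsq : ψ ^ 2 = 1) {z : ℂ} (hz : 0 < z.im) :
    TS f ψ (-1 / ((Q : ℂ) * (m : ℂ) ^ 2 * z)) =
      ψ (-((Q : ZMod m))) * (W * ((Q : ℂ) * (m : ℂ) * z) ^ k) * TS f ψ z := by
  unfold TS
  rw [mul_assoc (ψ (-((Q : ZMod m)))), Finset.mul_sum]
  have h1 : ∀ a : ZMod m, W * ((Q : ℂ) * (m : ℂ) * z) ^ k *
      (ψ a * f (ofComplex (z + ((a.val : ℤ) : ℂ) / m))) =
      ψ a * (W * ((Q : ℂ) * (m : ℂ) * z) ^ k * f (ofComplex (z + ((a.val : ℤ) : ℂ) / m))) :=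
    fun a => by ring
  simp_rw [h1]
  refine reindex ψ hsq (Q : ZMod m) ((ZMod.isUnit_iff_coprime _ _).2 hQm) _ _ fun a a' h => ?_
  obtain ⟨g, hg⟩ := exists_g (m := m) (Q : ℤ) (a := a) (a' := a') (by exact_mod_cast h)
  exact cusp_gen f hW hQ (NeZero.pos m) hNm hg hz

/-- the completed `L`-function of the twist and its functional equation (classical normalisation) -/
theorem exists_H [NeZero N] (hk : 0 < k) {Q : ℕ} {W : ℂ} (hW : AL f Q W) (hW0 : W ≠ 0) (hQ : 0 < Q)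
    {m : ℕ} [NeZero m] (hQm : Nat.Coprime Q m) (hNm : N ∣ Q * m) (ψ : DirichletCharacter ℂ m)
    (hψ : ψ.IsPrimitive) (hsq : ψ ^ 2 = 1) :
    ∃ (q : ℝ) (H : ℂ → ℂ), 0 < q ∧ Differentiable ℂ H ∧
      (∀ s : ℂ, H (k - s) = (ψ (-((Q : ZMod m))) * (W * (((Real.sqrt Q : ℝ) : ℂ) * Complex.I) ^ k)) * H s) ∧
      ∀ s : ℂ, 0 < s.re → (k : ℝ) / 2 + 1 < s.re →
        H s = ((q / (2 * Real.pi) : ℝ) : ℂ) ^ s * Complex.Gamma s *
          ∑' n : ℕ, (A f n * ψ n) * (n : ℂ) ^ (-s) := by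
  obtain ⟨C, hC⟩ := A_bound f
  have hC0 : 0 ≤ C := by
    have := (norm_nonneg _).trans (hC 1 le_rfl)
    simpa using this
  have hmR : (0 : ℝ) < m := by exact_mod_cast NeZero.pos m
  have hQR : (0 : ℝ) < Q := by exact_mod_cast hQ
  have hsQ : 0 < Real.sqrt Q := Real.sqrt_pos.2 hQR
  set q : ℝ := m * Real.sqrt Q with hq
  have hq0 : 0 < q := by positivity
  have hτ := tau_ne_zero ψ hψ
  have hψ1 : ∀ n : ℕ, ‖ψ n‖ ≤ 1 := fun n => DirichletCharacter.norm_le_one ψ _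
  set Φ : ℝ → ℂ := fun t => (tau ψ)⁻¹ * TS f ψ (Complex.I * ((t / q : ℝ) : ℂ)) with hΦdef
  have hkR : (0 : ℝ) < (k : ℝ) := by exact_mod_cast hk
  have hψQ : ψ (-((Q : ZMod m))) ≠ 0 := by
    have hu : IsUnit (-((Q : ZMod m))) := ((ZMod.isUnit_iff_coprime _ _).2 hQm).neg
    exact (hu.map ψ).ne_zero
  have hΦ : ∀ t : ℝ, 0 < t → HasSum (fun n : ℕ => (A f n * ψ n) *
      (Real.exp (-(2 * Real.pi * n / q) * t) : ℂ)) (Φ t) := by
    intro t ht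
    have h1 := (hasSum_TS f ψ hψ hsq (y := t / q) (by positivity)).mul_left (tau ψ)⁻¹
    refine h1.congr_fun fun n => ?_
    rw [← mul_assoc, inv_mul_cancel₀ hτ, one_mul]
    have e1 : -(2 * Real.pi * n / q) * t = -(2 * Real.pi * n) * (t / q) := by ring
    rw [e1]
  have hcont : ContinuousOn Φ (Set.Ioi 0) :=
    continuousOn_const.mul (continuousOn_TS f ψ q hq0)
  have hfe : ∀ t : ℝ, 0 < t → Φ (1 / t) =
      (ψ (-((Q : ZMod m))) * (W * (((Real.sqrt Q : ℝ) : ℂ) * Complex.I) ^ k)) *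
        ((t ^ (k : ℝ) : ℝ) : ℂ) * Φ t := by
    intro t ht
    have htC : (t : ℂ) ≠ 0 := by exact_mod_cast ht.ne'
    have hqC : (q : ℂ) ≠ 0 := by exact_mod_cast hq0.ne'
    have him : 0 < (Complex.I * ((t / q : ℝ) : ℂ)).im := by
      simp only [Complex.I_mul_im, Complex.ofReal_re]
      positivity
    have h1 := TS_gen f hW hQ hQm hNm ψ hsq him
    have hmC : (m : ℂ) ≠ 0 := by exact_mod_cast (NeZero.pos m).ne'
    have hQC : (Q : ℂ) ≠ 0 := by exact_mod_cast hQ.ne'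
    have hsC : ((Real.sqrt Q : ℝ) : ℂ) ≠ 0 := by exact_mod_cast hsQ.ne'
    have hsq2 : ((Real.sqrt Q : ℝ) : ℂ) ^ 2 = Q := by
      rw [← Complex.ofReal_pow, Real.sq_sqrt hQR.le]; simp
    have hq2 : (q : ℂ) = m * ((Real.sqrt Q : ℝ) : ℂ) := by rw [hq]; push_cast; ring
    have hI : Complex.I ^ 2 = -1 := Complex.I_sq
    have e1 : -1 / ((Q : ℂ) * (m : ℂ) ^ 2 * (Complex.I * ((t / q : ℝ) : ℂ))) =
        Complex.I * (((1 / t) / q : ℝ) : ℂ) := by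
      push_cast
      rw [div_eq_iff (by
        refine mul_ne_zero (mul_ne_zero hQC (pow_ne_zero 2 hmC)) (mul_ne_zero Complex.I_ne_zero ?_)
        exact div_ne_zero htC hqC)]
      rw [hq2]
      field_simp
      rw [hsq2, hI]
      field_simp
    have e2 : (Q : ℂ) * (m : ℂ) * (Complex.I * ((t / q : ℝ) : ℂ)) =
        (((Real.sqrt Q : ℝ) : ℂ) * Complex.I) * t := by
      push_cast
      rw [hq2]
      field_simp
      rw [hsq2]
    rw [e1, e2] at h1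
    have e3 : ((t ^ (k : ℝ) : ℝ) : ℂ) = (t : ℂ) ^ k := by
      rw [Real.rpow_intCast]; push_cast; rfl
    have h2 : Φ (1 / t) = (tau ψ)⁻¹ * TS f ψ (Complex.I * (((1 / t) / q : ℝ) : ℂ)) := rfl
    have h3 : Φ t = (tau ψ)⁻¹ * TS f ψ (Complex.I * ((t / q : ℝ) : ℂ)) := rfl
    rw [h2, h3, h1, e3, mul_zpow]
    ring
  have hb : ∀ n : ℕ, 1 ≤ n → ‖A f n * ψ n‖ ≤ C * (n : ℝ) ^ ((k : ℝ) / 2) := by
    intro n hn
    rw [norm_mul]
    calc ‖A f n‖ * ‖ψ n‖ ≤ (C * (n : ℝ) ^ ((k : ℝ) / 2)) * 1 := by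
          gcongr
          · exact hC n hn
          · exact hψ1 n
      _ = _ := mul_one _
  have hsqI : (((Real.sqrt Q : ℝ) : ℂ) * Complex.I) ^ k ≠ 0 := by
    apply zpow_ne_zero
    refine mul_ne_zero ?_ Complex.I_ne_zero
    exact_mod_cast hsQ.ne'
  obtain ⟨H, hH1, hH2, hH3⟩ := core (c := fun n => A f n * ψ n) (by simp [A_zero f]) hb hq0 hΦ hcont
    (k : ℝ) hkR (ψ (-((Q : ZMod m))) * (W * (((Real.sqrt Q : ℝ) : ℂ) * Complex.I) ^ k))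
    (mul_ne_zero hψQ (mul_ne_zero hW0 hsqI)) hfe
  refine ⟨q, H, hq0, hH1, ?_, hH3⟩
  intro s
  have := hH2 s
  simpa using this

end Q237.ST
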